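import Pool.Agent.H781.KP.AllF

/-!
MP_51e8f1_gt, Q1, partial result: closed positively curved manifolds whose curvature operator is not
too negative are formal. For every dimension `n ≥ 2` and every `κ > 0` there is `ε > 0` such that
every closed connected Riemannian `n`-manifold `M` with sectional curvature at least `κ` and
curvature operator at least `-ε`, and with `b_n ≠ 0` (that is, orientable), is formal: its real
cohomology algebra is `ℝ[x]/(x^(m+1))` with `x` of degree `q`, `n = q m`, and there is a homomorphism
of differential graded algebras from it, with zero differential, to the de Rham algebra of `M` which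
induces the identity on cohomology. No bound on diameter, volume or curvature from above is assumed.

The homomorphism is written out in the definition `FormalTruncated`
(`Pool/Agent/H781/KP/Fmt.lean`): closed forms `a k` of degree `q k` with `a 0 = 1` and
`a k ∧ a l = a (k + l)`, whose classes for `k ≤ m` are bases of the cohomology in the degrees `q k`,
while the cohomology in the other degrees `p ≤ n` vanishes (forms of degree `q k > n` vanish on an
`n`-manifold, so `x^(m+1) = 0` is respected).

`SecGE g κ` (all sectional curvatures are at least `κ`) is defined in
`Pool/Agent/H781/CM/FDefs2.lean`, `CurvOpGE n g c` (all eigenvalues of the curvature operator are at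
least `c`) and `IsBetti (𝓡 n) M p b` (the `p`-th de Rham cohomology of `M` has dimension `b`) in
`Pool/Agent/H781/CM/FDefs.lean`, the exterior product `wedge` in `Pool/Agent/H781/KP/GW.lean`.

Proof. The real cohomology ring is found as for MP_4e0d62_gt (`RealCohomology`): the eigenforms of
the Hodge Laplacian with very small eigenvalues converge, at a good point, to an algebra of forms
which are invariant under the values of a curvature tensor of rank one, and these are determined by
restriction to the orthogonal complements of lines. A closed form `α` representing the generator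
gives the homomorphism `x ↦ α`.
-/

set_option autoImplicit false

open Bundle Manifold ContDiff

noncomputable section

namespace Pool.Agent.Results.MP_51e8f1_gt.FormalOrientable

open Pool.Agent.H781.CM Pool.Agent.H781.CM.F Pool.Agent.H781.KP

/-- For every dimension `n ≥ 2` and every `κ > 0` there is `ε > 0` such that every closed connected
Riemannian `n`-manifold `M` with sectional curvature at least `κ` and curvature operator at least
`-ε` has vanishing `n`-th Betti number or is formal, with a truncated polynomial algebra on one
generator as real cohomology algebra. -/
theorem result (n : ℕ) (κ : ℝ) (hn : 2 ≤ n) (hκ : 0 < κ) : ∃ ε : ℝ, 0 < ε ∧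
    ∀ (M : Type) [TopologicalSpace M] [T2Space M] [CompactSpace M] [ConnectedSpace M]
      [ChartedSpace (EuclideanSpace ℝ (Fin n)) M] [IsManifold (𝓡 n) ∞ M]
      (g : ContMDiffRiemannianMetric (𝓡 n) ∞ (EuclideanSpace ℝ (Fin n))
        (fun x : M => TangentSpace (𝓡 n) x)),
      SecGE g κ → CurvOpGE n g (-ε) → IsBetti (𝓡 n) M n 0 ∨ FormalTruncated n M := by
  obtain ⟨ε, hε, h⟩ := mainf n κ hn hκ
  refine ⟨ε, hε, fun M _ _ _ _ _ _ g h1 h2 => ?_⟩
  obtain ⟨⟨b, hb, hs⟩, hc⟩ := h M g h1 h2
  refine formal_of b hb hn ?_ hs hc
  have h3 := hs.1 0
  by_contra h4
  have h5 : b 0 = 0 := by omega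
  have h7 := hb 0
  rw [h5] at h7
  have h6 : IsExactForm 0 (fun _ _ => 1 : DF (𝓡 n) M 0) := Cpr.betti_zero h7 closed_one
  obtain ⟨x⟩ := (inferInstance : Nonempty M)
  exact one_ne_zero (h6 x fun i => i.elim0)

end Pool.Agent.Results.MP_51e8f1_gt.FormalOrientable
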